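import Mathlib

/-!
# Coverable spacings of the square lattice do not form an interval

`Coverable d` says that the lattice `d ℤ²` can be covered by closed unit disks with pairwise
disjoint interiors.  We show that `2 / √17` and `2` are coverable while `0.4853` is not.
-/

set_option autoImplicit false

open MeasureTheory Metric

namespace Pool.Agent.Results.MP_bcdb6f_co.NotInterval

/-- The square lattice `L_d = d ℤ²` is coverable: there is a set `S` of centres such that the
closed unit disks centred at the points of `S` have pairwise disjoint interiors and every point of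
`L_d` lies in at least one of them. -/
def Coverable (d : ℝ) : Prop :=
  ∃ S : Set (EuclideanSpace ℝ (Fin 2)),
    (∀ c ∈ S, ∀ c' ∈ S, c ≠ c' → Disjoint (interior (closedBall c 1)) (interior (closedBall c' 1))) ∧
    ∀ a b : ℤ, ∃ c ∈ S, (!₂[d * a, d * b] : EuclideanSpace ℝ (Fin 2)) ∈ closedBall c 1

/-! ### Combinatorics: lattice sets of squared diameter at most 16 -/

theorem card_le_fourteen (A : Finset (ℤ × ℤ))
    (hA : ∀ p ∈ A, ∀ q ∈ A, (p.1 - q.1) ^ 2 + (p.2 - q.2) ^ 2 ≤ 16) : A.card ≤ 14 := by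
  classical
  rcases A.eq_empty_or_nonempty with h0 | hne
  · simp [h0]
  obtain ⟨px, hpx, hx⟩ := A.exists_min_image (fun p => p.1) hne
  obtain ⟨py, hpy, hy⟩ := A.exists_min_image (fun p => p.2) hne
  set x0 := px.1 with hx0
  set y0 := py.2 with hy0
  have hxu : ∀ p ∈ A, p.1 ≤ x0 + 4 := by
    intro p hp
    have := hA p hp px hpx
    nlinarith [sq_nonneg (p.2 - px.2)]
  have hyu : ∀ p ∈ A, p.2 ≤ y0 + 4 := by
    intro p hp
    have := hA p hp py hpy
    nlinarith [sq_nonneg (p.1 - py.1)]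
  -- if the width is 4, the two extreme columns have at most one point each
  have hcol : (∃ p ∈ A, p.1 = x0 + 4) →
      (A.filter (fun p => p.1 = x0)).card ≤ 1 ∧ (A.filter (fun p => p.1 = x0 + 4)).card ≤ 1 := by
    rintro ⟨r, hr, hr4⟩
    have key : ∀ p ∈ A, ∀ q ∈ A, p.1 = x0 → q.1 = x0 + 4 → p.2 = q.2 := by
      intro p hp q hq h1 h2
      have := hA p hp q hq
      rw [h1, h2] at this
      have h3 : (p.2 - q.2) ^ 2 ≤ 0 := by nlinarith
      have h4 : p.2 - q.2 = 0 := by
        have := sq_nonneg (p.2 - q.2)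
        exact pow_eq_zero_iff (n := 2) (by norm_num) |>.mp (le_antisymm h3 this)
      omega
    constructor
    · rw [Finset.card_le_one]
      intro p hp q hq
      rw [Finset.mem_filter] at hp hq
      have h1 := key p hp.1 r hr hp.2 hr4
      have h2 := key q hq.1 r hr hq.2 hr4
      exact Prod.ext (hp.2.trans hq.2.symm) (h1.trans h2.symm)
    · rw [Finset.card_le_one]
      intro p hp q hq
      rw [Finset.mem_filter] at hp hq
      have h1 := key px hpx p hp.1 rfl hp.2
      have h2 := key px hpx q hq.1 rfl hq.2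
      exact Prod.ext (hp.2.trans hq.2.symm) (h1.symm.trans h2)
  have hrow : (∃ p ∈ A, p.2 = y0 + 4) →
      (A.filter (fun p => p.2 = y0)).card ≤ 1 ∧ (A.filter (fun p => p.2 = y0 + 4)).card ≤ 1 := by
    rintro ⟨r, hr, hr4⟩
    have key : ∀ p ∈ A, ∀ q ∈ A, p.2 = y0 → q.2 = y0 + 4 → p.1 = q.1 := by
      intro p hp q hq h1 h2
      have := hA p hp q hq
      rw [h1, h2] at this
      have h3 : (p.1 - q.1) ^ 2 ≤ 0 := by nlinarith
      have h4 : p.1 - q.1 = 0 := by
        have := sq_nonneg (p.1 - q.1)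
        exact pow_eq_zero_iff (n := 2) (by norm_num) |>.mp (le_antisymm h3 this)
      omega
    constructor
    · rw [Finset.card_le_one]
      intro p hp q hq
      rw [Finset.mem_filter] at hp hq
      have h1 := key p hp.1 r hr hp.2 hr4
      have h2 := key q hq.1 r hr hq.2 hr4
      exact Prod.ext (h1.trans h2.symm) (hp.2.trans hq.2.symm)
    · rw [Finset.card_le_one]
      intro p hp q hq
      rw [Finset.mem_filter] at hp hq
      have h1 := key py hpy p hp.1 rfl hp.2
      have h2 := key py hpy q hq.1 rfl hq.2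
      exact Prod.ext (h1.symm.trans h2) (hp.2.trans hq.2.symm)
  by_cases hX : ∃ p ∈ A, p.1 = x0 + 4
  · by_cases hY : ∃ p ∈ A, p.2 = y0 + 4
    · obtain ⟨c1, c2⟩ := hcol hX
      obtain ⟨r1, r2⟩ := hrow hY
      have hsub : A ⊆ (A.filter (fun p => p.1 = x0)) ∪ ((A.filter (fun p => p.1 = x0 + 4)) ∪
          ((A.filter (fun p => p.2 = y0)) ∪ ((A.filter (fun p => p.2 = y0 + 4)) ∪
          (Finset.Icc (x0 + 1) (x0 + 3) ×ˢ Finset.Icc (y0 + 1) (y0 + 3))))) := by
        intro p hp
        simp only [Finset.mem_union, Finset.mem_filter, Finset.mem_product, Finset.mem_Icc, hp,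
          true_and]
        have h1 := hx p hp
        have h2 := hxu p hp
        have h3 := hy p hp
        have h4 := hyu p hp
        omega
      have h5 := Finset.card_le_card hsub
      have h6 : (Finset.Icc (x0 + 1) (x0 + 3) ×ˢ Finset.Icc (y0 + 1) (y0 + 3)).card = 9 := by
        rw [Finset.card_product, Int.card_Icc, Int.card_Icc]
        have e1 : (x0 + 3 + 1 - (x0 + 1)).toNat = 3 := by
          have : x0 + 3 + 1 - (x0 + 1) = 3 := by ring
          rw [this]; rfl
        have e2 : (y0 + 3 + 1 - (y0 + 1)).toNat = 3 := by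
          have : y0 + 3 + 1 - (y0 + 1) = 3 := by ring
          rw [this]; rfl
        rw [e1, e2]
      have h7 := Finset.card_union_le (A.filter (fun p => p.1 = x0))
        ((A.filter (fun p => p.1 = x0 + 4)) ∪
          ((A.filter (fun p => p.2 = y0)) ∪ ((A.filter (fun p => p.2 = y0 + 4)) ∪
          (Finset.Icc (x0 + 1) (x0 + 3) ×ˢ Finset.Icc (y0 + 1) (y0 + 3)))))
      have h8 := Finset.card_union_le (A.filter (fun p => p.1 = x0 + 4))
          ((A.filter (fun p => p.2 = y0)) ∪ ((A.filter (fun p => p.2 = y0 + 4)) ∪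
          (Finset.Icc (x0 + 1) (x0 + 3) ×ˢ Finset.Icc (y0 + 1) (y0 + 3))))
      have h9 := Finset.card_union_le (A.filter (fun p => p.2 = y0))
          ((A.filter (fun p => p.2 = y0 + 4)) ∪
          (Finset.Icc (x0 + 1) (x0 + 3) ×ˢ Finset.Icc (y0 + 1) (y0 + 3)))
      have h10 := Finset.card_union_le (A.filter (fun p => p.2 = y0 + 4))
          (Finset.Icc (x0 + 1) (x0 + 3) ×ˢ Finset.Icc (y0 + 1) (y0 + 3))
      omega
    · obtain ⟨c1, c2⟩ := hcol hX
      have hsub : A ⊆ (A.filter (fun p => p.1 = x0)) ∪ ((A.filter (fun p => p.1 = x0 + 4)) ∪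
          (Finset.Icc (x0 + 1) (x0 + 3) ×ˢ Finset.Icc y0 (y0 + 3))) := by
        intro p hp
        simp only [Finset.mem_union, Finset.mem_filter, Finset.mem_product, Finset.mem_Icc, hp,
          true_and]
        have h1 := hx p hp
        have h2 := hxu p hp
        have h3 := hy p hp
        have h4 := hyu p hp
        have h5 : p.2 ≠ y0 + 4 := fun h => hY ⟨p, hp, h⟩
        omega
      have h5 := Finset.card_le_card hsub
      have h6 : (Finset.Icc (x0 + 1) (x0 + 3) ×ˢ Finset.Icc y0 (y0 + 3)).card = 12 := by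
        rw [Finset.card_product, Int.card_Icc, Int.card_Icc]
        have e1 : (x0 + 3 + 1 - (x0 + 1)).toNat = 3 := by
          have : x0 + 3 + 1 - (x0 + 1) = 3 := by ring
          rw [this]; rfl
        have e2 : (y0 + 3 + 1 - y0).toNat = 4 := by
          have : y0 + 3 + 1 - y0 = 4 := by ring
          rw [this]; rfl
        rw [e1, e2]
      have h7 := Finset.card_union_le (A.filter (fun p => p.1 = x0))
        ((A.filter (fun p => p.1 = x0 + 4)) ∪
          (Finset.Icc (x0 + 1) (x0 + 3) ×ˢ Finset.Icc y0 (y0 + 3)))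
      have h8 := Finset.card_union_le (A.filter (fun p => p.1 = x0 + 4))
          (Finset.Icc (x0 + 1) (x0 + 3) ×ˢ Finset.Icc y0 (y0 + 3))
      omega
  · by_cases hY : ∃ p ∈ A, p.2 = y0 + 4
    · obtain ⟨r1, r2⟩ := hrow hY
      have hsub : A ⊆ (A.filter (fun p => p.2 = y0)) ∪ ((A.filter (fun p => p.2 = y0 + 4)) ∪
          (Finset.Icc x0 (x0 + 3) ×ˢ Finset.Icc (y0 + 1) (y0 + 3))) := by
        intro p hp
        simp only [Finset.mem_union, Finset.mem_filter, Finset.mem_product, Finset.mem_Icc, hp,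
          true_and]
        have h1 := hx p hp
        have h2 := hxu p hp
        have h3 := hy p hp
        have h4 := hyu p hp
        have h5 : p.1 ≠ x0 + 4 := fun h => hX ⟨p, hp, h⟩
        omega
      have h5 := Finset.card_le_card hsub
      have h6 : (Finset.Icc x0 (x0 + 3) ×ˢ Finset.Icc (y0 + 1) (y0 + 3)).card = 12 := by
        rw [Finset.card_product, Int.card_Icc, Int.card_Icc]
        have e1 : (x0 + 3 + 1 - x0).toNat = 4 := by
          have : x0 + 3 + 1 - x0 = 4 := by ring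
          rw [this]; rfl
        have e2 : (y0 + 3 + 1 - (y0 + 1)).toNat = 3 := by
          have : y0 + 3 + 1 - (y0 + 1) = 3 := by ring
          rw [this]; rfl
        rw [e1, e2]
      have h7 := Finset.card_union_le (A.filter (fun p => p.2 = y0))
        ((A.filter (fun p => p.2 = y0 + 4)) ∪
          (Finset.Icc x0 (x0 + 3) ×ˢ Finset.Icc (y0 + 1) (y0 + 3)))
      have h8 := Finset.card_union_le (A.filter (fun p => p.2 = y0 + 4))
          (Finset.Icc x0 (x0 + 3) ×ˢ Finset.Icc (y0 + 1) (y0 + 3))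
      omega
    · -- a 4 by 4 block, opposite corners excluded
      obtain ⟨u, hu, hu'⟩ : ∃ u : ℤ × ℤ, (u = (x0, y0) ∨ u = (x0 + 3, y0 + 3)) ∧ u ∉ A := by
        by_cases h1 : (x0, y0) ∈ A
        · refine ⟨(x0 + 3, y0 + 3), Or.inr rfl, fun h2 => ?_⟩
          have := hA _ h1 _ h2
          simp only at this
          ring_nf at this
          omega
        · exact ⟨_, Or.inl rfl, h1⟩
      obtain ⟨w, hw, hw'⟩ : ∃ w : ℤ × ℤ, (w = (x0, y0 + 3) ∨ w = (x0 + 3, y0)) ∧ w ∉ A := by
        by_cases h1 : (x0, y0 + 3) ∈ A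
        · refine ⟨(x0 + 3, y0), Or.inr rfl, fun h2 => ?_⟩
          have := hA _ h1 _ h2
          simp only at this
          ring_nf at this
          omega
        · exact ⟨_, Or.inl rfl, h1⟩
      have huw : u ≠ w := by
        rcases hu with rfl | rfl <;> rcases hw with rfl | rfl <;>
          simp [Prod.ext_iff]
      have hsub : A ⊆ ((Finset.Icc x0 (x0 + 3) ×ˢ Finset.Icc y0 (y0 + 3)).erase u).erase w := by
        intro p hp
        rw [Finset.mem_erase, Finset.mem_erase, Finset.mem_product, Finset.mem_Icc,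
          Finset.mem_Icc]
        have h1 := hx p hp
        have h2 := hxu p hp
        have h3 := hy p hp
        have h4 := hyu p hp
        have h5 : p.1 ≠ x0 + 4 := fun h => hX ⟨p, hp, h⟩
        have h6 : p.2 ≠ y0 + 4 := fun h => hY ⟨p, hp, h⟩
        refine ⟨fun h => hw' (h ▸ hp), fun h => hu' (h ▸ hp), ⟨h1, by omega⟩, ⟨h3, by omega⟩⟩
      have h5 := Finset.card_le_card hsub
      have hmu : u ∈ (Finset.Icc x0 (x0 + 3) ×ˢ Finset.Icc y0 (y0 + 3)) := by
        rw [Finset.mem_product, Finset.mem_Icc, Finset.mem_Icc]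
        rcases hu with rfl | rfl <;> simp
      have hmw : w ∈ (Finset.Icc x0 (x0 + 3) ×ˢ Finset.Icc y0 (y0 + 3)).erase u := by
        rw [Finset.mem_erase, Finset.mem_product, Finset.mem_Icc, Finset.mem_Icc]
        refine ⟨huw.symm, ?_⟩
        rcases hw with rfl | rfl <;> simp
      rw [Finset.card_erase_of_mem hmw, Finset.card_erase_of_mem hmu, Finset.card_product,
        Int.card_Icc, Int.card_Icc] at h5
      have e1 : (x0 + 3 + 1 - x0).toNat = 4 := by
        have : x0 + 3 + 1 - x0 = 4 := by ring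
        rw [this]; rfl
      have e2 : (y0 + 3 + 1 - y0).toNat = 4 := by
        have : y0 + 3 + 1 - y0 = 4 := by ring
        rw [this]; rfl
      rw [e1, e2] at h5
      omega

/-! ### A density bound for packings of unit disks -/

/-- the enlarged radius; its square is `1.16` -/
noncomputable def RR : ℝ := Real.sqrt (29 / 25)

theorem RR_sq : RR ^ 2 = 29 / 25 := Real.sq_sqrt (by norm_num)

theorem RR_pos : 0 < RR := Real.sqrt_pos.mpr (by norm_num)

theorem RR_lt : RR < 11 / 10 := by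
  have h1 := RR_sq
  have h2 := RR_pos
  nlinarith

/-- The comparison region containing the (moved) intersection of two enlarged disks. -/
def lensT : Set ℂ := {z : ℂ | z.re ∈ Set.Ioo (-(2 / 5) : ℝ) (2 / 5) ∧
  z.im ∈ Set.Ioo (-((4 / 25 - z.re ^ 2) / 2)) ((4 / 25 - z.re ^ 2) / 2)}

theorem volume_lensT : volume lensT = ENNReal.ofReal (32 / 375) := by
  have h1 : lensT = Complex.measurableEquivRealProd ⁻¹'
      (regionBetween (fun x : ℝ => -((4 / 25 - x ^ 2) / 2)) (fun x : ℝ => (4 / 25 - x ^ 2) / 2)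
        (Set.Ioo (-(2 / 5) : ℝ) (2 / 5))) := by
    ext z
    rfl
  rw [h1, Complex.volume_preserving_equiv_real_prod.measure_preimage_equiv]
  have hint : ∀ f : ℝ → ℝ, Continuous f →
      IntegrableOn f (Set.Ioo (-(2 / 5) : ℝ) (2 / 5)) volume := by
    intro f hf
    exact (hf.integrableOn_Icc (a := -(2 / 5)) (b := 2 / 5)).mono_set Set.Ioo_subset_Icc_self
  rw [Measure.volume_eq_prod, volume_regionBetween_eq_integral]
  · congr 1
    rw [← integral_Ioc_eq_integral_Ioo, ← intervalIntegral.integral_of_le (by norm_num)]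
    have : ((fun x : ℝ => (4 / 25 - x ^ 2) / 2) - (fun x : ℝ =>
        -((4 / 25 - x ^ 2) / 2)) : ℝ → ℝ) = fun y : ℝ => 4 / 25 - y ^ 2 := by
      funext y
      simp only [Pi.sub_apply]
      ring
    rw [this, intervalIntegral.integral_sub (by simp) (by
      apply Continuous.intervalIntegrable; fun_prop), integral_pow,
      intervalIntegral.integral_const]
    norm_num
  · exact hint _ (by fun_prop)
  · exact hint _ (by fun_prop)
  · exact measurableSet_Ioo
  · intro x hx
    have h2 : x ^ 2 < 4 / 25 := by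
      have := hx.1
      have := hx.2
      nlinarith
    linarith

theorem lens_le (c c' : ℂ) (h : 2 ≤ dist c c') :
    volume (ball c RR ∩ ball c' RR) ≤ ENNReal.ofReal (32 / 375) := by
  set d := dist c c' with hd
  have hdpos : 0 < d := by linarith
  have hdn : ‖c' - c‖ = d := by rw [hd, dist_comm, Complex.dist_eq]
  -- unit vector in the direction of the centres, turned to the imaginary axis
  set w : ℂ := Complex.I * (starRingEnd ℂ) (c' - c) / d with hw
  have hwn : ‖w‖ = 1 := by
    rw [hw, norm_div, norm_mul, Complex.norm_I, one_mul, Complex.norm_conj, hdn,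
      Complex.norm_real, Real.norm_of_nonneg hdpos.le, div_self hdpos.ne']
  let wc : Circle := ⟨w, by rw [Submonoid.unitSphere]; simpa using hwn⟩
  have hmp := (rotation wc).measurePreserving
  set m : ℂ := (c + c') / 2 with hm
  have hsub : ball c RR ∩ ball c' RR ⊆ (fun z => z - m) ⁻¹' ((rotation wc) ⁻¹' lensT) := by
    rintro p ⟨hp, hp'⟩
    rw [Set.mem_preimage, Set.mem_preimage, rotation_apply]
    show w * (p - m) ∈ lensT
    set z := w * (p - m) with hz
    have hwd : w * (c' - c) = Complex.I * d := by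
      rw [hw]
      have h1 : (starRingEnd ℂ) (c' - c) * (c' - c) = ((d ^ 2 : ℝ) : ℂ) := by
        rw [mul_comm, Complex.mul_conj, Complex.normSq_eq_norm_sq, hdn]
      have h2 : (d : ℂ) ≠ 0 := by exact_mod_cast hdpos.ne'
      rw [div_mul_eq_mul_div, div_eq_iff h2, mul_assoc, h1]
      push_cast
      ring
    have h1 : w * (p - c) = z + Complex.I * d / 2 := by
      rw [hz, ← hwd, hm]; ring
    have h2 : w * (p - c') = z - Complex.I * d / 2 := by
      rw [hz, ← hwd, hm]; ring
    have n1 : ‖z + Complex.I * d / 2‖ < RR := by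
      rw [← h1, norm_mul, hwn, one_mul, ← Complex.dist_eq]
      exact hp
    have n2 : ‖z - Complex.I * d / 2‖ < RR := by
      rw [← h2, norm_mul, hwn, one_mul, ← Complex.dist_eq]
      exact hp'
    have q1 : z.re ^ 2 + (z.im + d / 2) ^ 2 < 29 / 25 := by
      have e1 : ‖z + Complex.I * d / 2‖ ^ 2 = z.re ^ 2 + (z.im + d / 2) ^ 2 := by
        rw [← Complex.normSq_eq_norm_sq, Complex.normSq_apply]
        simp
        ring
      rw [← e1, ← RR_sq]
      have := norm_nonneg (z + Complex.I * d / 2)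
      nlinarith [RR_pos]
    have q2 : z.re ^ 2 + (z.im - d / 2) ^ 2 < 29 / 25 := by
      have e1 : ‖z - Complex.I * d / 2‖ ^ 2 = z.re ^ 2 + (z.im - d / 2) ^ 2 := by
        rw [← Complex.normSq_eq_norm_sq, Complex.normSq_apply]
        simp
        ring
      rw [← e1, ← RR_sq]
      have := norm_nonneg (z - Complex.I * d / 2)
      nlinarith [RR_pos]
    have i1 : 2 * z.im + z.re ^ 2 < 4 / 25 := by
      nlinarith [sq_nonneg z.im]
    have i2 : -(2 * z.im) + z.re ^ 2 < 4 / 25 := by
      nlinarith [sq_nonneg z.im]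
    have hre : z.re ^ 2 < 4 / 25 := by linarith
    refine ⟨⟨?_, ?_⟩, ⟨?_, ?_⟩⟩
    · nlinarith
    · nlinarith
    · linarith
    · linarith
  calc volume (ball c RR ∩ ball c' RR)
      ≤ volume ((fun z => z - m) ⁻¹' ((rotation wc) ⁻¹' lensT)) := measure_mono hsub
    _ = volume ((rotation wc) ⁻¹' lensT) := by
        have : (fun z : ℂ => z - m) = (fun z => z + (-m)) := by
          funext z; ring
        rw [this, measure_preimage_add_right]
    _ = volume lensT := by
        have he : MeasurePreserving (rotation wc).toMeasurableEquiv volume volume := hmp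
        exact he.measure_preimage_equiv lensT
    _ = ENNReal.ofReal (32 / 375) := volume_lensT

/-- Bonferroni's inequality, with all pairs counted twice. -/
theorem bonferroni (T : Finset ℂ) (B : ℂ → Set ℂ) (hB : ∀ c, MeasurableSet (B c)) :
    2 * ∑ c ∈ T, volume (B c) ≤ 2 * volume (⋃ c ∈ T, B c) +
      ∑ c ∈ T, ∑ c' ∈ T.erase c, volume (B c ∩ B c') := by
  classical
  induction T using Finset.induction_on with
  | empty => simp
  | insert a S ha ih =>
    rw [Finset.sum_insert ha, Finset.sum_insert ha, Finset.erase_insert ha]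
    have h1 : ∑ c ∈ S, ∑ c' ∈ (insert a S).erase c, volume (B c ∩ B c') =
        ∑ c ∈ S, volume (B c ∩ B a) + ∑ c ∈ S, ∑ c' ∈ S.erase c, volume (B c ∩ B c') := by
      rw [← Finset.sum_add_distrib]
      apply Finset.sum_congr rfl
      intro c hc
      have hca : c ≠ a := fun h => ha (h ▸ hc)
      rw [Finset.erase_insert_of_ne hca.symm, Finset.sum_insert]
      intro h
      exact ha (Finset.mem_of_mem_erase h)
    rw [h1]
    have h2 : ∑ c' ∈ S, volume (B a ∩ B c') = ∑ c ∈ S, volume (B c ∩ B a) := by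
      apply Finset.sum_congr rfl
      intro c _
      rw [Set.inter_comm]
    rw [h2]
    have h3 : (⋃ c ∈ insert a S, B c) = (⋃ c ∈ S, B c) ∪ B a := by
      rw [Finset.set_biUnion_insert, Set.union_comm]
    rw [h3]
    have h4 := measure_union_add_inter (μ := volume) (⋃ c ∈ S, B c) (hB a)
    have h5 : volume ((⋃ c ∈ S, B c) ∩ B a) ≤ ∑ c ∈ S, volume (B c ∩ B a) := by
      rw [Set.iUnion₂_inter]
      exact measure_biUnion_finset_le S _
    calc 2 * (volume (B a) + ∑ c ∈ S, volume (B c))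
        = 2 * volume (B a) + 2 * ∑ c ∈ S, volume (B c) := by ring
      _ ≤ 2 * volume (B a) + (2 * volume (⋃ c ∈ S, B c) +
            ∑ c ∈ S, ∑ c' ∈ S.erase c, volume (B c ∩ B c')) := by gcongr
      _ = 2 * (volume (⋃ c ∈ S, B c) + volume (B a)) +
            ∑ c ∈ S, ∑ c' ∈ S.erase c, volume (B c ∩ B c') := by ring
      _ = 2 * (volume ((⋃ c ∈ S, B c) ∪ B a) + volume ((⋃ c ∈ S, B c) ∩ B a)) +
            ∑ c ∈ S, ∑ c' ∈ S.erase c, volume (B c ∩ B c') := by rw [h4]
      _ ≤ 2 * (volume ((⋃ c ∈ S, B c) ∪ B a) + ∑ c ∈ S, volume (B c ∩ B a)) +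
            ∑ c ∈ S, ∑ c' ∈ S.erase c, volume (B c ∩ B c') := by gcongr
      _ = _ := by ring

/-- In one octant there is at most one neighbour. -/
theorem octant_real (x y u v : ℝ) (hx : 0 ≤ x) (hy : 0 ≤ y) (hu : 0 ≤ u) (hv : 0 ≤ v)
    (hyx : y ≤ x) (hvu : v ≤ u) (h1 : 4 ≤ x ^ 2 + y ^ 2) (h2 : x ^ 2 + y ^ 2 ≤ 4.64)
    (h3 : 4 ≤ u ^ 2 + v ^ 2) (h4 : u ^ 2 + v ^ 2 ≤ 4.64) :
    (x - u) ^ 2 + (y - v) ^ 2 < 4 := by
  by_contra hn
  rw [not_lt] at hn
  have hdot : 0 ≤ x * u + y * v := by positivity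
  have e1 : 2 * (x * u + y * v) ≤ 5.28 := by nlinarith
  have e2 : (x ^ 2 + y ^ 2) * (u ^ 2 + v ^ 2) ≤ 2 * (x * u + y * v) ^ 2 := by
    have f1 : 0 ≤ x * u - x * v + y * v + u * y := by nlinarith
    have f2 : 0 ≤ x * u - u * y + v * y + v * x := by nlinarith
    nlinarith [mul_nonneg f1 f2]
  nlinarith [mul_le_mul h1 h3 (by norm_num) (by linarith)]

/-- The octant of a complex number. -/
noncomputable def oct (z : ℂ) : Bool × Bool × Bool := by
  classical
  exact (decide (0 ≤ z.re), decide (0 ≤ z.im), decide (|z.im| ≤ |z.re|))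

theorem abs_sub_of_same (a b : ℝ) (h : 0 ≤ a ↔ 0 ≤ b) : (a - b) ^ 2 = (|a| - |b|) ^ 2 := by
  by_cases ha : 0 ≤ a
  · rw [abs_of_nonneg ha, abs_of_nonneg (h.mp ha)]
  · have hb : ¬ 0 ≤ b := fun hb => ha (h.mpr hb)
    rw [abs_of_neg (not_le.mp ha), abs_of_neg (not_le.mp hb)]
    ring

theorem octant_complex (z w : ℂ) (h : oct z = oct w) (h1 : 4 ≤ z.re ^ 2 + z.im ^ 2)
    (h2 : z.re ^ 2 + z.im ^ 2 ≤ 4.64) (h3 : 4 ≤ w.re ^ 2 + w.im ^ 2)
    (h4 : w.re ^ 2 + w.im ^ 2 ≤ 4.64) : (z.re - w.re) ^ 2 + (z.im - w.im) ^ 2 < 4 := by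
  unfold oct at h
  simp only [Prod.mk.injEq, decide_eq_decide] at h
  obtain ⟨e1, e2, e3⟩ := h
  rw [abs_sub_of_same _ _ e1, abs_sub_of_same _ _ e2]
  rw [← sq_abs z.re, ← sq_abs z.im] at h1 h2
  rw [← sq_abs w.re, ← sq_abs w.im] at h3 h4
  by_cases hc : |z.im| ≤ |z.re|
  · exact octant_real _ _ _ _ (abs_nonneg _) (abs_nonneg _) (abs_nonneg _) (abs_nonneg _) hc
      (e3.mp hc) h1 h2 h3 h4
  · have hc' : ¬ |w.im| ≤ |w.re| := fun h => hc (e3.mpr h)
    have := octant_real _ _ _ _ (abs_nonneg z.im) (abs_nonneg z.re) (abs_nonneg w.im)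
      (abs_nonneg w.re) (not_le.mp hc).le (not_le.mp hc').le (by linarith) (by linarith)
      (by linarith) (by linarith)
    linarith

theorem dist_sq (z w : ℂ) : dist z w ^ 2 = (z.re - w.re) ^ 2 + (z.im - w.im) ^ 2 := by
  rw [Complex.dist_eq, ← Complex.normSq_eq_norm_sq, Complex.normSq_apply]
  simp
  ring

theorem neighbours_le (T : Finset ℂ) (hT : ∀ c ∈ T, ∀ c' ∈ T, c ≠ c' → 2 ≤ dist c c') (c : ℂ)
    (hc : c ∈ T) : ((T.erase c).filter (fun c' => dist c c' < 2 * RR)).card ≤ 8 := by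
  classical
  have h8 : (Finset.univ : Finset (Bool × Bool × Bool)).card = 8 := by decide
  rw [← h8]
  apply Finset.card_le_card_of_injOn (fun c' => oct (c' - c))
  · intro _ _
    exact Finset.mem_coe.mpr (Finset.mem_univ _)
  · intro a ha b hb hab
    have ha' := Finset.mem_filter.mp (Finset.mem_coe.mp ha)
    have hb' := Finset.mem_filter.mp (Finset.mem_coe.mp hb)
    have hac := Finset.mem_erase.mp ha'.1
    have hbc := Finset.mem_erase.mp hb'.1
    by_contra hne
    have d1 := hT c hc a hac.2 hac.1.symm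
    have d2 := hT c hc b hbc.2 hbc.1.symm
    have d3 := hT a hac.2 b hbc.2 hne
    have key : ∀ z : ℂ, 2 ≤ dist c z → dist c z < 2 * RR →
        4 ≤ (z - c).re ^ 2 + (z - c).im ^ 2 ∧ (z - c).re ^ 2 + (z - c).im ^ 2 ≤ 4.64 := by
      intro z hz1 hz2
      have e := dist_sq c z
      have e2 : (z - c).re ^ 2 + (z - c).im ^ 2 = dist c z ^ 2 := by
        rw [e, Complex.sub_re, Complex.sub_im]; ring
      rw [e2]
      constructor
      · nlinarith
      · have := RR_sq
        have := RR_pos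
        nlinarith
    have k1 := key a d1 ha'.2
    have k2 := key b d2 hb'.2
    have := octant_complex _ _ hab k1.1 k1.2 k2.1 k2.2
    have e := dist_sq a b
    simp only [Complex.sub_re, Complex.sub_im] at this
    have e3 : (a.re - c.re - (b.re - c.re)) ^ 2 + (a.im - c.im - (b.im - c.im)) ^ 2 =
        dist a b ^ 2 := by
      rw [e]; ring
    rw [e3] at this
    nlinarith

/-- Density bound: `N` points of a square of half-side `a` with mutual distances at least `2`
satisfy `3.3 N ≤ (2 (a + 1.1))²`. -/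
theorem density (T : Finset ℂ) (hT : ∀ c ∈ T, ∀ c' ∈ T, c ≠ c' → 2 ≤ dist c c') (a : ℝ)
    (ha : 0 ≤ a) (hbox : ∀ c ∈ T, |c.re| ≤ a ∧ |c.im| ≤ a) :
    3.3 * (T.card : ℝ) ≤ (2 * (a + 1.1)) ^ 2 := by
  classical
  have hb := bonferroni T (fun c => ball c RR) (fun c => measurableSet_ball)
  -- upper bound for the union
  set Q : Set ℂ := {z | z.re ∈ Set.Ioo (-(a + 1.1)) (a + 1.1) ∧
    z.im ∈ Set.Ioo (-(a + 1.1)) (a + 1.1)} with hQ
  have hQv : volume Q = ENNReal.ofReal (2 * (a + 1.1)) ^ 2 := by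
    have h1 : Q = Complex.measurableEquivRealProd ⁻¹'
        (Set.Ioo (-(a + 1.1)) (a + 1.1) ×ˢ Set.Ioo (-(a + 1.1)) (a + 1.1)) := by
      ext z; rfl
    rw [h1, Complex.volume_preserving_equiv_real_prod.measure_preimage_equiv,
      Measure.volume_eq_prod, Measure.prod_prod, Real.volume_Ioo, sq]
    have : a + 1.1 - -(a + 1.1) = 2 * (a + 1.1) := by ring
    rw [this]
  have hU : (⋃ c ∈ T, ball c RR) ⊆ Q := by
    intro z hz
    rw [Set.mem_iUnion₂] at hz
    obtain ⟨c, hc, hz⟩ := hz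
    obtain ⟨b1, b2⟩ := hbox c hc
    have hz' : dist z c < RR := hz
    have hR := RR_lt
    have e := dist_sq z c
    have hre : |z.re - c.re| < 1.1 := by
      rw [← Real.norm_eq_abs, ← Complex.sub_re]
      calc ‖(z - c).re‖ ≤ ‖z - c‖ := Complex.abs_re_le_norm _
        _ = dist z c := (Complex.dist_eq z c).symm
        _ < 1.1 := by linarith
    have him : |z.im - c.im| < 1.1 := by
      rw [← Real.norm_eq_abs, ← Complex.sub_im]
      calc ‖(z - c).im‖ ≤ ‖z - c‖ := Complex.abs_im_le_norm _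
        _ = dist z c := (Complex.dist_eq z c).symm
        _ < 1.1 := by linarith
    rw [abs_lt] at hre him
    rw [abs_le] at b1 b2
    refine ⟨⟨?_, ?_⟩, ⟨?_, ?_⟩⟩ <;> linarith [hre.1, hre.2, him.1, him.2, b1.1, b1.2, b2.1, b2.2]
  have hUv : volume (⋃ c ∈ T, ball c RR) ≤ ENNReal.ofReal (2 * (a + 1.1)) ^ 2 := by
    rw [← hQv]; exact measure_mono hU
  -- the pair terms
  have hpair : ∀ c ∈ T, ∑ c' ∈ T.erase c, volume (ball c RR ∩ ball c' RR) ≤
      8 * ENNReal.ofReal (32 / 375) := by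
    intro c hc
    rw [← Finset.sum_filter_add_sum_filter_not (T.erase c) (fun c' => dist c c' < 2 * RR)]
    have hz : ∑ c' ∈ (T.erase c).filter (fun c' => ¬ dist c c' < 2 * RR),
        volume (ball c RR ∩ ball c' RR) = 0 := by
      apply Finset.sum_eq_zero
      intro c' hc'
      have h := (Finset.mem_filter.mp hc').2
      rw [not_lt] at h
      have : ball c RR ∩ ball c' RR = ∅ := by
        rw [← Set.disjoint_iff_inter_eq_empty]
        apply Metric.ball_disjoint_ball
        linarith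
      rw [this, measure_empty]
    rw [hz, add_zero]
    calc ∑ c' ∈ (T.erase c).filter (fun c' => dist c c' < 2 * RR),
          volume (ball c RR ∩ ball c' RR)
        ≤ ∑ _c' ∈ (T.erase c).filter (fun c' => dist c c' < 2 * RR),
          ENNReal.ofReal (32 / 375) := by
          apply Finset.sum_le_sum
          intro c' hc'
          have h := Finset.mem_erase.mp (Finset.mem_filter.mp hc').1
          exact lens_le c c' (hT c hc c' h.2 h.1.symm)
      _ = ((T.erase c).filter (fun c' => dist c c' < 2 * RR)).card *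
          ENNReal.ofReal (32 / 375) := by
          rw [Finset.sum_const, nsmul_eq_mul]
      _ ≤ 8 * ENNReal.ofReal (32 / 375) := by
          gcongr
          exact_mod_cast neighbours_le T hT c hc
  have hsum : ∑ c ∈ T, ∑ c' ∈ T.erase c, volume (ball c RR ∩ ball c' RR) ≤
      T.card * (8 * ENNReal.ofReal (32 / 375)) := by
    calc _ ≤ ∑ _c ∈ T, 8 * ENNReal.ofReal (32 / 375) := Finset.sum_le_sum hpair
      _ = _ := by rw [Finset.sum_const, nsmul_eq_mul]
  have hball : ∑ c ∈ T, volume (ball c RR) = T.card * ENNReal.ofReal (Real.pi * (29 / 25)) := by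
    rw [Finset.sum_congr rfl (fun c _ => Complex.volume_ball c RR), Finset.sum_const,
      nsmul_eq_mul]
    congr 1
    rw [← ENNReal.ofReal_pow RR_pos.le, RR_sq, ENNReal.ofReal_mul Real.pi_pos.le, mul_comm]
    congr 1
    rw [ENNReal.ofReal, NNReal.pi]
    congr 1
    exact (Real.toNNReal_of_nonneg Real.pi_pos.le).symm
  have hfin : (2 : ENNReal) * (T.card * ENNReal.ofReal (Real.pi * (29 / 25))) ≤
      2 * ENNReal.ofReal (2 * (a + 1.1)) ^ 2 + T.card * (8 * ENNReal.ofReal (32 / 375)) := by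
    rw [← hball]
    calc _ ≤ _ := hb
      _ ≤ _ := by gcongr
  have hreal : 2 * ((T.card : ℝ) * (Real.pi * (29 / 25))) ≤
      2 * (2 * (a + 1.1)) ^ 2 + T.card * (8 * (32 / 375)) := by
    have h0 : (0 : ℝ) ≤ 2 * (a + 1.1) := by positivity
    have e0 : ENNReal.ofReal 2 = 2 := by norm_num
    have e8 : ENNReal.ofReal 8 = 8 := by norm_num
    have e1 : (2 : ENNReal) * (T.card * ENNReal.ofReal (Real.pi * (29 / 25))) =
        ENNReal.ofReal (2 * ((T.card : ℝ) * (Real.pi * (29 / 25)))) := by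
      symm
      rw [ENNReal.ofReal_mul (p := 2) (by norm_num),
        ENNReal.ofReal_mul (p := (T.card : ℝ)) (Nat.cast_nonneg _), ENNReal.ofReal_natCast, e0]
    have e2 : 2 * ENNReal.ofReal (2 * (a + 1.1)) ^ 2 + T.card * (8 * ENNReal.ofReal (32 / 375)) =
        ENNReal.ofReal (2 * (2 * (a + 1.1)) ^ 2 + T.card * (8 * (32 / 375))) := by
      symm
      rw [ENNReal.ofReal_add (by positivity) (by positivity),
        ENNReal.ofReal_mul (p := 2) (q := (2 * (a + 1.1)) ^ 2) (by norm_num),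
        ENNReal.ofReal_pow h0, ENNReal.ofReal_mul (p := (T.card : ℝ)) (Nat.cast_nonneg _),
        ENNReal.ofReal_natCast, ENNReal.ofReal_mul (p := 8) (by norm_num), e0, e8]
    rw [e1, e2] at hfin
    exact (ENNReal.ofReal_le_ofReal_iff (by positivity)).mp hfin
  have hpi := Real.pi_gt_d4
  have hcard : (0 : ℝ) ≤ T.card := Nat.cast_nonneg _
  nlinarith

/-! ### Non-coverability -/

/-- The point of the complex plane with the same coordinates. -/
noncomputable def toC (x : EuclideanSpace ℝ (Fin 2)) : ℂ := ⟨x 0, x 1⟩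

theorem dist_toC (x y : EuclideanSpace ℝ (Fin 2)) : dist (toC x) (toC y) = dist x y := by
  have h1 : dist (toC x) (toC y) ^ 2 = dist x y ^ 2 := by
    rw [dist_sq, EuclideanSpace.dist_eq, Real.sq_sqrt (by positivity), Fin.sum_univ_two,
      Real.dist_eq, Real.dist_eq, sq_abs, sq_abs]
    rfl
  exact (pow_left_inj₀ dist_nonneg dist_nonneg (by norm_num)).mp h1

theorem dist_ge_of_disjoint {x y : EuclideanSpace ℝ (Fin 2)}
    (h : Disjoint (interior (closedBall x 1)) (interior (closedBall y 1))) : 2 ≤ dist x y := by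
  rw [interior_closedBall _ (by norm_num), interior_closedBall _ (by norm_num)] at h
  by_contra hn
  rw [not_le] at hn
  have h1 : midpoint ℝ x y ∈ ball x 1 := by
    rw [mem_ball, dist_midpoint_left, Real.norm_of_nonneg (by norm_num)]
    linarith
  have h2 : midpoint ℝ x y ∈ ball y 1 := by
    rw [mem_ball, dist_midpoint_right, Real.norm_of_nonneg (by norm_num)]
    linarith
  exact Set.disjoint_left.mp h h1 h2

theorem not_coverable (d : ℝ) (h1 : 4 < 17 * d ^ 2) (h2 : 14 * d ^ 2 < 3.3) (hd : 0 < d) :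
    ¬ Coverable d := by
  classical
  rintro ⟨S, hS, hcov⟩
  choose c hcS hc using hcov
  have hne : ∀ a b a' b' : ℤ, toC (c a b) ≠ toC (c a' b') →
      2 ≤ dist (toC (c a b)) (toC (c a' b')) := by
    intro a b a' b' h
    rw [dist_toC]
    apply dist_ge_of_disjoint
    apply hS _ (hcS a b) _ (hcS a' b')
    intro h'
    exact h (by rw [h'])
  have hd1 : ∀ a b : ℤ, (d * a - (toC (c a b)).re) ^ 2 + (d * b - (toC (c a b)).im) ^ 2 ≤ 1 := by
    intro a b
    have h := hc a b
    rw [mem_closedBall, EuclideanSpace.dist_eq, Real.sqrt_le_iff, Fin.sum_univ_two,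
      Real.dist_eq, Real.dist_eq, sq_abs, sq_abs] at h
    simpa [toC] using h.2
  have main : ∀ M : ℕ, 3.3 * (2 * (M : ℝ) + 1) ^ 2 ≤ 14 * (2 * ((d * M + 1) + 1.1)) ^ 2 := by
    intro M
    set G : Finset (ℤ × ℤ) := Finset.Icc (-(M : ℤ)) M ×ˢ Finset.Icc (-(M : ℤ)) M with hG
    set f : ℤ × ℤ → ℂ := fun p => toC (c p.1 p.2) with hf
    have hcardG : (G.card : ℝ) = (2 * (M : ℝ) + 1) ^ 2 := by
      rw [hG, Finset.card_product, Int.card_Icc]
      have : ((M : ℤ) + 1 - -(M : ℤ)).toNat = 2 * M + 1 := by omega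
      rw [this]
      push_cast
      ring
    have hfib : ∀ b ∈ Finset.image f G, ({p ∈ G | f p = b}).card ≤ 14 := by
      intro t _
      apply card_le_fourteen
      intro p hp q hq
      rw [Finset.mem_filter] at hp hq
      have e1 := hd1 p.1 p.2
      have e2 := hd1 q.1 q.2
      have e3 : toC (c p.1 p.2) = t := hp.2
      have e4 : toC (c q.1 q.2) = t := hq.2
      rw [e3] at e1
      rw [e4] at e2
      have e5 : d ^ 2 * (((p.1 : ℝ) - q.1) ^ 2 + ((p.2 : ℝ) - q.2) ^ 2) ≤ 4 := by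
        have i1 := sq_nonneg ((d * p.1 - t.re) + (d * q.1 - t.re))
        have i2 := sq_nonneg ((d * p.2 - t.im) + (d * q.2 - t.im))
        nlinarith
      have e6 : (((p.1 : ℝ) - q.1) ^ 2 + ((p.2 : ℝ) - q.2) ^ 2) < 17 := by
        by_contra hn
        rw [not_lt] at hn
        nlinarith [mul_le_mul_of_nonneg_left hn (sq_nonneg d)]
      have e7 : ((p.1 - q.1) ^ 2 + (p.2 - q.2) ^ 2 : ℤ) < 17 := by
        exact_mod_cast e6
      omega
    have h3 := Finset.card_le_mul_card_image (f := f) G 14 hfib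
    have h4 : (G.card : ℝ) ≤ 14 * ((Finset.image f G).card : ℝ) := by exact_mod_cast h3
    have h5 : 3.3 * ((Finset.image f G).card : ℝ) ≤ (2 * ((d * M + 1) + 1.1)) ^ 2 := by
      apply density
      · intro x hx y hy hxy
        obtain ⟨p, _, rfl⟩ := Finset.mem_image.mp hx
        obtain ⟨q, _, rfl⟩ := Finset.mem_image.mp hy
        exact hne _ _ _ _ hxy
      · positivity
      · intro x hx
        obtain ⟨p, hp, rfl⟩ := Finset.mem_image.mp hx
        rw [hG, Finset.mem_product, Finset.mem_Icc, Finset.mem_Icc] at hp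
        obtain ⟨⟨a1, a2⟩, ⟨b1, b2⟩⟩ := hp
        have a1' : -(M : ℝ) ≤ p.1 := by exact_mod_cast a1
        have a2' : (p.1 : ℝ) ≤ M := by exact_mod_cast a2
        have b1' : -(M : ℝ) ≤ p.2 := by exact_mod_cast b1
        have b2' : (p.2 : ℝ) ≤ M := by exact_mod_cast b2
        have e := hd1 p.1 p.2
        have x1 : |d * p.1 - (f p).re| ≤ 1 := by
          rw [abs_le]
          constructor <;> nlinarith [sq_nonneg (d * p.2 - (toC (c p.1 p.2)).im)]
        have x2 : |d * p.2 - (f p).im| ≤ 1 := by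
          rw [abs_le]
          constructor <;> nlinarith [sq_nonneg (d * p.1 - (toC (c p.1 p.2)).re)]
        rw [abs_le] at x1 x2
        have y1 : d * p.1 ≤ d * M := by gcongr
        have y2 : -(d * M) ≤ d * p.1 := by nlinarith
        have y3 : d * p.2 ≤ d * M := by gcongr
        have y4 : -(d * M) ≤ d * p.2 := by nlinarith
        constructor
        · rw [abs_le]
          constructor <;> linarith [x1.1, x1.2]
        · rw [abs_le]
          constructor <;> linarith [x2.1, x2.2]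
    rw [← hcardG]
    linarith
  -- let M tend to infinity
  have hgap : 0 < 3.3 - 14 * d ^ 2 := by linarith
  obtain ⟨M, hM⟩ := exists_nat_gt ((14 * 4.2 * d * 2 + 14 * 4.41 * 4) / (3.3 - 14 * d ^ 2) + 1)
  have h := main M
  have hM1 : (1 : ℝ) ≤ M := by
    have : 0 ≤ (14 * 4.2 * d * 2 + 14 * 4.41 * 4) / (3.3 - 14 * d ^ 2) := by positivity
    linarith
  have hM2 : (14 * 4.2 * d * 2 + 14 * 4.41 * 4) < (3.3 - 14 * d ^ 2) * M := by
    have : (14 * 4.2 * d * 2 + 14 * 4.41 * 4) / (3.3 - 14 * d ^ 2) < M := by linarith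
    rw [div_lt_iff₀ hgap] at this
    linarith
  have hM3 : (14 * 4.2 * d * 2 + 14 * 4.41 * 4) * M < (3.3 - 14 * d ^ 2) * M * M := by
    apply mul_lt_mul_of_pos_right hM2
    linarith
  nlinarith

/-! ### Coverability -/

theorem coverable_of (d : ℝ) (P : ℤ → ℤ → Prop) (u v : ℝ) (R : ℤ)
    (hR : 4 ≤ d ^ 2 * R)
    (hsep : ∀ x y x' y' : ℤ, P x y → P x' y' → (x, y) ≠ (x', y') →
      R ≤ (x - x') ^ 2 + (y - y') ^ 2)
    (hcov : ∀ a b : ℤ, ∃ x y : ℤ, P x y ∧
      d ^ 2 * ((a - x - u) ^ 2 + (b - y - v) ^ 2) ≤ 1) : Coverable d := by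
  refine ⟨{c | ∃ x y : ℤ, P x y ∧ c = !₂[d * (x + u), d * (y + v)]}, ?_, ?_⟩
  · rintro _ ⟨x, y, hP, rfl⟩ _ ⟨x', y', hP', rfl⟩ hne
    rw [interior_closedBall _ (by norm_num), interior_closedBall _ (by norm_num)]
    apply Metric.ball_disjoint_ball
    have hne' : (x, y) ≠ (x', y') := by
      intro h
      rw [Prod.mk.injEq] at h
      exact hne (by rw [h.1, h.2])
    have h1 := hsep x y x' y' hP hP' hne'
    have h2 : (R : ℝ) ≤ ((x : ℝ) - x') ^ 2 + ((y : ℝ) - y') ^ 2 := by exact_mod_cast h1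
    rw [EuclideanSpace.dist_eq, Fin.sum_univ_two, Real.dist_eq, Real.dist_eq, sq_abs, sq_abs]
    apply Real.le_sqrt_of_sq_le
    simp only [Fin.isValue, Matrix.cons_val_zero, Matrix.cons_val_one]
    nlinarith [mul_le_mul_of_nonneg_left h2 (sq_nonneg d)]
  · intro a b
    obtain ⟨x, y, hP, h⟩ := hcov a b
    refine ⟨_, ⟨x, y, hP, rfl⟩, ?_⟩
    rw [mem_closedBall, EuclideanSpace.dist_eq, Real.sqrt_le_iff, Fin.sum_univ_two,
      Real.dist_eq, Real.dist_eq, sq_abs, sq_abs]
    simp only [Fin.isValue, Matrix.cons_val_zero, Matrix.cons_val_one]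
    refine ⟨by norm_num, ?_⟩
    nlinarith

theorem coverable_two : Coverable 2 := by
  apply coverable_of 2 (fun _ _ => True) 0 0 1 (by norm_num)
  · intro x y x' y' _ _ hne
    by_contra hn
    rw [not_le] at hn
    have h1 : (x - x') ^ 2 = 0 := by nlinarith [sq_nonneg (x - x'), sq_nonneg (y - y')]
    have h2 : (y - y') ^ 2 = 0 := by nlinarith [sq_nonneg (x - x'), sq_nonneg (y - y')]
    rw [pow_eq_zero_iff (by norm_num)] at h1 h2
    exact hne (Prod.ext (by simpa using sub_eq_zero.mp h1) (by simpa using sub_eq_zero.mp h2))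
  · intro a b
    exact ⟨a, b, trivial, by simp⟩

theorem small_vectors : ∀ x ∈ Finset.Icc (-4 : ℤ) 4, ∀ y ∈ Finset.Icc (-4 : ℤ) 4,
    (x + 4 * y) % 15 = 0 → x ^ 2 + y ^ 2 ≤ 16 → x = 0 ∧ y = 0 := by
  decide +kernel

theorem shape : ∀ k ∈ Finset.Icc (0 : ℤ) 14, ∃ p ∈ Finset.Icc (-1 : ℤ) 2,
    ∃ q ∈ Finset.Icc (-2 : ℤ) 2, (p + 4 * q - k) % 15 = 0 ∧ (2 * p - 1) ^ 2 + 4 * q ^ 2 ≤ 17 := by
  decide +kernel

theorem coverable_sqrt : Coverable (2 / Real.sqrt 17) := by
  have hs : Real.sqrt 17 ^ 2 = 17 := Real.sq_sqrt (by norm_num)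
  have hpos : 0 < Real.sqrt 17 := Real.sqrt_pos.mpr (by norm_num)
  have hd2 : (2 / Real.sqrt 17) ^ 2 = 4 / 17 := by rw [div_pow, hs]; norm_num
  apply coverable_of _ (fun x y => (x + 4 * y) % 15 = 0) (1 / 2) 0 17
    (by rw [hd2]; norm_num)
  · intro x y x' y' hP hP' hne
    by_contra hn
    rw [not_le] at hn
    have hx : x - x' ∈ Finset.Icc (-4 : ℤ) 4 := by
      rw [Finset.mem_Icc]
      constructor <;> nlinarith [sq_nonneg (y - y')]
    have hy : y - y' ∈ Finset.Icc (-4 : ℤ) 4 := by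
      rw [Finset.mem_Icc]
      constructor <;> nlinarith [sq_nonneg (x - x')]
    have := small_vectors (x - x') hx (y - y') hy (by omega) (by omega)
    exact hne (Prod.ext (by simp; omega) (by simp; omega))
  · intro a b
    obtain ⟨p, _, q, _, h1, h2⟩ := shape ((a + 4 * b) % 15) (by
      rw [Finset.mem_Icc]; omega)
    refine ⟨a - p, b - q, by omega, ?_⟩
    rw [hd2]
    have h3 : ((2 * (p : ℝ) - 1) ^ 2 + 4 * (q : ℝ) ^ 2) ≤ 17 := by exact_mod_cast h2
    push_cast
    nlinarith

/-- The set `C` of coverable spacings is not an interval: there are `0 < d₁ < d₂ < d₃` such that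
`L_{d₁}` and `L_{d₃}` are coverable but `L_{d₂}` is not. -/
theorem result : ∃ d₁ d₂ d₃ : ℝ, 0 < d₁ ∧ d₁ < d₂ ∧ d₂ < d₃ ∧
    Coverable d₁ ∧ ¬ Coverable d₂ ∧ Coverable d₃ := by
  have hs : Real.sqrt 17 ^ 2 = 17 := Real.sq_sqrt (by norm_num)
  have hpos : 0 < Real.sqrt 17 := Real.sqrt_pos.mpr (by norm_num)
  refine ⟨2 / Real.sqrt 17, 0.4853, 2, by positivity, ?_, by norm_num, coverable_sqrt, ?_,
    coverable_two⟩
  · rw [div_lt_iff₀ hpos]
    have : (4.1215 : ℝ) < Real.sqrt 17 := by
      apply Real.lt_sqrt_of_sq_lt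
      norm_num
    linarith
  · apply not_coverable <;> norm_num

end Pool.Agent.Results.MP_bcdb6f_co.NotInterval
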